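import Mathlib

/-!
# Newton and Hodge polygons of the cohomology of varieties over number fields
-/

set_option autoImplicit false

namespace Pool.Agent.L0h15.OP

/-- The polygon with the slopes `N` lies on or above the polygon with the slopes `H`, with the same
endpoints: `N` and `H` are given by nondecreasing sequences `a` and `b` of length `n`, such that the
partial sums of `a` are at least those of `b`, with equality for the complete sums. -/
def Above (N H : Multiset ℚ) : Prop :=
  ∃ (n : ℕ) (a b : ℕ → ℚ), Monotone a ∧ Monotone b ∧ N = (Multiset.range n).map a ∧
    H = (Multiset.range n).map b ∧ (∀ k ≤ n, ∑ i ∈ Finset.range k, b i ≤ ∑ i ∈ Finset.range k, a i) ∧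
    ∑ i ∈ Finset.range n, a i = ∑ i ∈ Finset.range n, b i

/-- the slopes of a tensor product: the sums of slopes -/
def pairs (N M : Multiset ℚ) : Multiset ℚ := N.bind fun x => M.map fun y => x + y

/-- the data -/
structure Theory where
  /-- the number fields -/
  Fld : Type
  /-- the field of rational numbers -/
  rat : Fld
  /-- the maximal ideals of the ring of integers -/
  Place : Fld → Type
  /-- the residue characteristic -/
  char : ∀ {F}, Place F → ℕ
  /-- the projective varieties over `F` (not necessarily connected) -/
  Var : Fld → Type
  /-- the smooth projective varieties -/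
  Smooth : ∀ {F}, Var F → Prop
  /-- the slopes of the Newton polygon of the Frobenius at a maximal ideal on the `n`-th intersection
  cohomology, for all but finitely many maximal ideals -/
  newton : ∀ {F}, Var F → ℤ → Place F → Multiset ℚ
  /-- the slopes of the Hodge-Tate polygon of the `n`-th intersection cohomology -/
  hodge : ∀ {F}, Var F → ℤ → Multiset ℚ
  /-- the product of varieties over `ℚ` -/
  prod : Var rat → Var rat → Var rat

namespace Theory

variable (T : Theory)

/-- for all but finitely many maximal ideals -/
def Almost {F : T.Fld} (P : T.Place F → Prop) : Prop := {v | ¬ P v}.Finite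

/-- the maximal ideal `v` is ordinary for the `n`-th intersection cohomology of `X` -/
def Ord {F : T.Fld} (X : T.Var F) (n : ℤ) (v : T.Place F) : Prop := T.newton X n v = T.hodge X n

/-- the question for `X` and `n`: there are infinitely many ordinary maximal ideals -/
def Question {F : T.Fld} (X : T.Var F) (n : ℤ) : Prop := {v | T.Ord X n v}.Infinite

/-- there are infinitely many prime numbers `p` such that for each of the varieties `X i` over `F i` all
maximal ideals of `F i` of residue characteristic `p` are ordinary for the cohomology of degree `n i` -/
def Simultaneous {r : ℕ} (F : Fin r → T.Fld) (X : ∀ i, T.Var (F i)) (n : Fin r → ℤ) : Prop :=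
  {p : T.Place T.rat | ∀ i (v : T.Place (F i)), T.char v = T.char p → T.Ord (X i) (n i) v}.Infinite

/-- the known properties -/
structure Known : Prop where
  /-- only finitely many maximal ideals have a given residue characteristic -/
  fibre : ∀ {F} (p : ℕ), {v : T.Place F | T.char v = p}.Finite
  /-- there are maximal ideals of a given residue characteristic -/
  lies_over : ∀ F (p : T.Place T.rat), ∃ v : T.Place F, T.char v = T.char p
  /-- a point over `ℚ` -/
  point : ∃ P : T.Var T.rat, T.Smooth P ∧ T.hodge P 0 ≠ 0
  /-- the Newton polygon lies above the Hodge polygon (Katz-Messing, Mazur, Faltings) -/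
  above : ∀ {F} (X : T.Var F) n, T.Smooth X → T.Almost fun v => Above (T.newton X n v) (T.hodge X n)
  /-- The decomposition theorem: the intersection cohomology of `X` is a direct summand of the cohomology
  of a resolution `Y`, and for both summands the Newton polygon lies above the Hodge polygon (the
  summands are given by motivated cycles). -/
  decomposition : ∀ {F} (X : T.Var F) n, ∃ (Y : T.Var F) (R : T.Place F → Multiset ℚ)
    (RH : Multiset ℚ), T.Smooth Y ∧ T.hodge Y n = T.hodge X n + RH ∧
      T.Almost fun v => T.newton Y n v = T.newton X n v + R v ∧
        Above (T.newton X n v) (T.hodge X n) ∧ Above (R v) RH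
  smooth_prod : ∀ X Y, T.Smooth X → T.Smooth Y → T.Smooth (T.prod X Y)
  /-- the Künneth formula; the other summands of the cohomology of the product have the slopes `R` -/
  kunneth : ∀ X Y n m, T.Smooth X → T.Smooth Y → ∃ (R : T.Place T.rat → Multiset ℚ)
    (RH : Multiset ℚ), T.hodge (T.prod X Y) (n + m) = pairs (T.hodge X n) (T.hodge Y m) + RH ∧
      T.Almost fun v => T.newton (T.prod X Y) (n + m) v =
        pairs (T.newton X n v) (T.newton Y m v) + R v ∧ Above (R v) RH
  /-- a smooth projective variety over a number field `F` of degree `d`, considered as a variety over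
  `ℚ`; its cohomology is the induced representation, and `f v` is the degree of the residue field -/
  scalars : ∀ {F} (X : T.Var F) n, T.Smooth X → ∃ (Y : T.Var T.rat) (d : ℕ) (f : T.Place F → ℕ),
    T.Smooth Y ∧ 0 < d ∧ T.hodge Y n = d • T.hodge X n ∧ (∀ v, 0 < f v) ∧
      T.Almost fun p => ∃ L : Finset (T.Place F), (∀ v, v ∈ L ↔ T.char v = T.char p) ∧
        ∑ v ∈ L, f v = d ∧ T.newton Y n p = ∑ v ∈ L, f v • T.newton X n v

end Theory

end Pool.Agent.L0h15.OP
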