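import Pool.Agent.L0h15.OP.Moment

/-!
# Simultaneous ordinary primes
-/

set_option autoImplicit false

namespace Pool.Agent.L0h15.OP

namespace Theory

variable {T : Theory}

theorem Almost.and {F : T.Fld} {P Q : T.Place F → Prop} (hP : T.Almost P) (hQ : T.Almost Q) :
    T.Almost fun v => P v ∧ Q v := by
  refine (hP.union hQ).subset ?_
  intro v hv
  by_cases h : P v
  · exact Or.inr fun hq => hv ⟨h, hq⟩
  · exact Or.inl h

theorem Almost.mono {F : T.Fld} {P Q : T.Place F → Prop} (hP : T.Almost P)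
    (h : ∀ v, P v → Q v) : T.Almost Q := hP.subset fun _ hv hp => hv (h _ hp)

/-- the prime numbers below exceptional maximal ideals are finite in number -/
theorem Almost.below (hK : T.Known) {F : T.Fld} {P : T.Place F → Prop} (hP : T.Almost P) :
    T.Almost fun p : T.Place T.rat => ∀ v : T.Place F, T.char v = T.char p → P v := by
  have h1 : (⋃ v ∈ {v : T.Place F | ¬ P v}, {p : T.Place T.rat | T.char p = T.char v}).Finite :=
    hP.biUnion fun v _ => hK.fibre (T.char v)
  refine h1.subset ?_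
  intro p hp
  obtain ⟨v, h⟩ := not_forall.1 hp
  obtain ⟨h2, h3⟩ := Classical.not_imp.1 h
  exact Set.mem_biUnion (show v ∈ {v : T.Place F | ¬ P v} from h3) h2.symm

/-- ordinary summands -/
theorem ord_of_add {N H R RH : Multiset ℚ} (h1 : Above N H) (h2 : Above R RH)
    (h : N + R = H + RH) : N = H := by
  refine h1.moment.2.2.2 ?_
  have h3 := congrArg sq h
  rw [sq_add, sq_add] at h3
  have := h2.moment.2.2.1
  linarith

/-- ordinary tensor factors -/
theorem ord_of_pairs {N H M K R RH : Multiset ℚ} (h1 : Above N H) (h2 : Above M K)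
    (h3 : Above R RH) (hH : H ≠ 0) (hK : K ≠ 0) (h : pairs N M + R = pairs H K + RH) :
    N = H ∧ M = K := by
  have h4 := congrArg sq h
  rw [sq_add, sq_add, sq_pairs, sq_pairs, h1.moment.1, h1.moment.2.1, h2.moment.1,
    h2.moment.2.1] at h4
  have h5 : (0 : ℚ) < H.card := by exact_mod_cast Multiset.card_pos.2 hH
  have h6 : (0 : ℚ) < K.card := by exact_mod_cast Multiset.card_pos.2 hK
  have h7 := h1.moment.2.2.1
  have h8 := h2.moment.2.2.1
  have h9 := h3.moment.2.2.1
  have h10 : 0 ≤ (K.card : ℚ) * (sq H - sq N) := mul_nonneg h6.le (by linarith)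
  have h11 : 0 ≤ (H.card : ℚ) * (sq K - sq M) := mul_nonneg h5.le (by linarith)
  have h12 : (K.card : ℚ) * (sq H - sq N) = 0 := by nlinarith
  have h13 : (H.card : ℚ) * (sq K - sq M) = 0 := by nlinarith
  refine ⟨h1.moment.2.2.2 ?_, h2.moment.2.2.2 ?_⟩
  · have := (mul_eq_zero.1 h12).resolve_left h6.ne'
    linarith
  · have := (mul_eq_zero.1 h13).resolve_left h5.ne'
    linarith

/-- the polygons of a zero space -/
theorem above_zero {N H : Multiset ℚ} (h : Above N H) (hH : H = 0) : N = H := by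
  rw [hH]
  have h1 := h.moment.1
  rw [hH, Multiset.card_zero] at h1
  exact Multiset.card_eq_zero.1 h1

/-- from intersection cohomology to a smooth variety -/
theorem exists_smooth (hK : T.Known) {F : T.Fld} (X : T.Var F) (n : ℤ) : ∃ Y : T.Var F, T.Smooth Y ∧
    T.Almost fun v => T.Ord Y n v → T.Ord X n v := by
  obtain ⟨Y, R, RH, hY, hh, hA⟩ := hK.decomposition X n
  refine ⟨Y, hY, hA.mono fun v ⟨h1, h2, h3⟩ hord => ?_⟩
  refine ord_of_add h2 h3 ?_
  rw [← h1, ← hh]
  exact hord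

/-- from a number field to the rational numbers: the maximal ideals above an ordinary prime number are
ordinary -/
theorem exists_rat (hK : T.Known) {F : T.Fld} (X : T.Var F) (n : ℤ) (hX : T.Smooth X) :
    ∃ Y : T.Var T.rat, T.Smooth Y ∧ T.Almost fun p => T.Ord Y n p →
      ∀ v : T.Place F, T.char v = T.char p → T.Ord X n v := by
  obtain ⟨Y, d, f, hY, hd, hh, hf, hA⟩ := hK.scalars X n hX
  refine ⟨Y, hY, (hA.and ((hK.above X n hX).below hK)).mono ?_⟩
  rintro p ⟨⟨L, hL, hsum, hN⟩, hgood⟩ hord v hv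
  have hgood' : ∀ w ∈ L, Above (T.newton X n w) (T.hodge X n) := fun w hw => hgood w ((hL w).1 hw)
  have h1 : sq (T.newton X n v) = sq (T.hodge X n) := by
    have h2 := congrArg sq (hord : T.newton Y n p = T.hodge Y n)
    rw [hN, hh, sq_sum, sq_nsmul, ← hsum] at h2
    push_cast at h2
    rw [Finset.sum_mul] at h2
    have h3 : ∑ w ∈ L, ((f w : ℚ) * sq (T.hodge X n) - (f w : ℚ) * sq (T.newton X n w)) = 0 := by
      rw [Finset.sum_sub_distrib, ← h2, sub_eq_zero]
      exact Finset.sum_congr rfl fun w _ => sq_nsmul _ _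
    have h4 : ∀ w ∈ L, 0 ≤ (f w : ℚ) * sq (T.hodge X n) - (f w : ℚ) * sq (T.newton X n w) := by
      intro w hw
      have h5 := (hgood' w hw).moment.2.2.1
      have h6 : (0 : ℚ) < f w := by exact_mod_cast hf w
      nlinarith
    have h5 := (Finset.sum_eq_zero_iff_of_nonneg h4).1 h3 v ((hL v).2 hv)
    have h6 : (0 : ℚ) < f v := by exact_mod_cast hf v
    have h7 : (f v : ℚ) * (sq (T.hodge X n) - sq (T.newton X n v)) = 0 := by rw [mul_sub]; exact h5
    have h8 := (mul_eq_zero.1 h7).resolve_left h6.ne'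
    linarith
  exact (hgood' v ((hL v).2 hv)).moment.2.2.2 h1.ge

/-- one variety for a finite number of varieties over `ℚ` -/
theorem exists_prod (hK : T.Known) (r : ℕ) (X : Fin r → T.Var T.rat) (n : Fin r → ℤ)
    (hX : ∀ i, T.Smooth (X i)) : ∃ (Z : T.Var T.rat) (m : ℤ), T.Smooth Z ∧ T.hodge Z m ≠ 0 ∧
      T.Almost fun p => T.Ord Z m p → ∀ i, T.Ord (X i) (n i) p := by
  induction r with
  | zero =>
    obtain ⟨P, hP, h0⟩ := hK.point
    refine ⟨P, 0, hP, h0, ?_⟩
    refine Set.Finite.subset Set.finite_empty ?_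
    intro p hp
    exact absurd (fun _ i => i.elim0) hp
  | succ r ih =>
    obtain ⟨Z, m, hZ, h0, hA⟩ := ih (fun i => X i.succ) (fun i => n i.succ) (fun i => hX i.succ)
    by_cases hz : T.hodge (X 0) (n 0) = 0
    · refine ⟨Z, m, hZ, h0, (hA.and (hK.above (X 0) (n 0) (hX 0))).mono ?_⟩
      rintro p ⟨h1, h2⟩ h3 i
      refine Fin.cases ?_ (fun j => h1 h3 j) i
      exact above_zero h2 hz
    · obtain ⟨R, RH, hh, hA2⟩ := hK.kunneth (X 0) Z (n 0) m (hX 0) hZ
      refine ⟨T.prod (X 0) Z, n 0 + m, hK.smooth_prod _ _ (hX 0) hZ, ?_, ?_⟩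
      · rw [hh]
        intro h
        have h1 := congrArg Multiset.card h
        rw [Multiset.card_add, Multiset.card_zero] at h1
        have h2 : (pairs (T.hodge (X 0) (n 0)) (T.hodge Z m)).card = 0 := by omega
        rw [pairs, Multiset.card_bind] at h2
        simp only [Function.comp_def, Multiset.card_map, Multiset.map_const', Multiset.sum_replicate,
          smul_eq_mul, mul_eq_zero, Multiset.card_eq_zero] at h2
        exact h2.elim hz h0
      · refine ((hA.and hA2).and ((hK.above (X 0) (n 0) (hX 0)).and (hK.above Z m hZ))).mono ?_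
        rintro p ⟨⟨h1, h2, h3⟩, h4, h5⟩ hord
        have h6 := ord_of_pairs h4 h5 h3 hz h0 (by rw [← h2, ← hh]; exact hord)
        intro i
        refine Fin.cases h6.1 (fun j => h1 h6.2 j) i

/-- from any variety to a smooth variety over `ℚ` -/
theorem exists_smooth_rat (hK : T.Known) {F : T.Fld} (X : T.Var F) (n : ℤ) :
    ∃ Y : T.Var T.rat, T.Smooth Y ∧ T.Almost fun p => T.Ord Y n p →
      ∀ v : T.Place F, T.char v = T.char p → T.Ord X n v := by
  obtain ⟨Y, hY, h1⟩ := exists_smooth hK X n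
  obtain ⟨W, hW, h2⟩ := exists_rat hK Y n hY
  refine ⟨W, hW, (h2.and (h1.below hK)).mono ?_⟩
  rintro p ⟨h3, h4⟩ h5 v hv
  exact h4 v hv (h3 h5 v hv)

/-- the simultaneous version, for a notion of large sets of prime numbers -/
theorem simultaneous_large (hK : T.Known) (𝓛 : Set (Set (T.Place T.rat)))
    (hsup : ∀ A B, A ∈ 𝓛 → A ⊆ B → B ∈ 𝓛) (hfin : ∀ A B, A ∈ 𝓛 → B.Finite → A \ B ∈ 𝓛)
    (h : ∀ (X : T.Var T.rat) n, T.Smooth X → T.hodge X n ≠ 0 → {p | T.Ord X n p} ∈ 𝓛) {r : ℕ}
    (F : Fin r → T.Fld) (X : ∀ i, T.Var (F i)) (n : Fin r → ℤ) :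
    {p : T.Place T.rat | ∀ i (v : T.Place (F i)), T.char v = T.char p → T.Ord (X i) (n i) v} ∈ 𝓛 := by
  choose Y hY hA using fun i => exists_smooth_rat hK (X i) (n i)
  obtain ⟨Z, m, hZ, h0, hA2⟩ := exists_prod hK r Y n hY
  have h1 : {p : T.Place T.rat | T.Ord Z m p} ∈ 𝓛 := h Z m hZ h0
  have h2 : {p : T.Place T.rat | ¬ ∀ i, T.Ord (Y i) (n i) p →
      ∀ v : T.Place (F i), T.char v = T.char p → T.Ord (X i) (n i) v}.Finite := by
    have h3 : (⋃ i, {p : T.Place T.rat | ¬ (T.Ord (Y i) (n i) p →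
        ∀ v : T.Place (F i), T.char v = T.char p → T.Ord (X i) (n i) v)}).Finite :=
      Set.finite_iUnion fun i => hA i
    refine h3.subset fun p hp => ?_
    obtain ⟨i, hi⟩ := not_forall.1 hp
    exact Set.mem_iUnion.2 ⟨i, hi⟩
  refine hsup _ _ (hfin _ _ (hfin _ _ h1 hA2) h2) ?_
  rintro p ⟨⟨h5, h6⟩, h7⟩ i v hv
  exact (not_not.1 h7) i ((not_not.1 h6) h5 i) v hv

/-- the simultaneous version -/
theorem simultaneous (hK : T.Known)
    (h : ∀ (X : T.Var T.rat) n, T.Smooth X → T.hodge X n ≠ 0 → T.Question X n) {r : ℕ}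
    (F : Fin r → T.Fld) (X : ∀ i, T.Var (F i)) (n : Fin r → ℤ) : T.Simultaneous F X n :=
  simultaneous_large hK {A | A.Infinite} (fun _ _ hA hAB => hA.mono hAB)
    (fun _ _ hA hB => hA.sdiff hB) h F X n

theorem question_of_simultaneous (hK : T.Known) {F : T.Fld} (X : T.Var F) (n : ℤ)
    (h : T.Simultaneous (r := 1) (fun _ => F) (fun _ => X) (fun _ => n)) : T.Question X n := by
  intro hfin
  have h1 : (⋃ v ∈ {v : T.Place F | T.Ord X n v},
      {p : T.Place T.rat | T.char p = T.char v}).Finite :=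
    Set.Finite.biUnion hfin fun v _ => hK.fibre (T.char v)
  refine h (h1.subset ?_)
  intro p hp
  obtain ⟨v, hv⟩ := hK.lies_over F p
  exact Set.mem_biUnion (show v ∈ {v : T.Place F | T.Ord X n v} from hp 0 v hv) hv.symm

end Theory

end Pool.Agent.L0h15.OP
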