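import Pool.Agent.L0h15.OP.Defs

/-!
# The second moment of the slopes
-/

set_option autoImplicit false

namespace Pool.Agent.L0h15.OP

/-- the sum of the squares of the slopes -/
def sq (N : Multiset ℚ) : ℚ := (N.map fun x => x ^ 2).sum

theorem sq_add (N M : Multiset ℚ) : sq (N + M) = sq N + sq M := by
  rw [sq, Multiset.map_add, Multiset.sum_add]; rfl

theorem sq_nsmul (d : ℕ) (N : Multiset ℚ) : sq (d • N) = d * sq N := by
  rw [sq, Multiset.map_nsmul, Multiset.sum_nsmul, nsmul_eq_mul]; rfl

theorem sq_zero : sq 0 = 0 := by simp [sq]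

theorem sq_cons (x : ℚ) (N : Multiset ℚ) : sq (x ::ₘ N) = x ^ 2 + sq N := by
  rw [sq, Multiset.map_cons, Multiset.sum_cons, sq]

theorem sq_sum {ι : Type*} (s : Finset ι) (N : ι → Multiset ℚ) :
    sq (∑ i ∈ s, N i) = ∑ i ∈ s, sq (N i) := by
  classical
  induction s using Finset.induction_on with
  | empty => simp [sq_zero]
  | insert i s hi ih => rw [Finset.sum_insert hi, Finset.sum_insert hi, sq_add, ih]

theorem sq_pairs (N M : Multiset ℚ) :
    sq (pairs N M) = M.card * sq N + 2 * N.sum * M.sum + N.card * sq M := by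
  have h1 : ∀ x : ℚ, sq (M.map fun y => x + y) = M.card * x ^ 2 + 2 * x * M.sum + sq M := by
    intro x
    induction M using Multiset.induction_on with
    | empty => simp [sq]
    | cons y M ih =>
      rw [Multiset.map_cons, sq_cons, ih, Multiset.card_cons, Multiset.sum_cons, sq_cons]
      push_cast
      ring
  induction N using Multiset.induction_on with
  | empty => simp [sq, pairs]
  | cons x N ih =>
    have h2 : pairs (x ::ₘ N) M = (M.map fun y => x + y) + pairs N M := by
      rw [pairs, Multiset.cons_bind, pairs]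
    rw [h2, sq_add, h1, ih, Multiset.card_cons, Multiset.sum_cons, sq_cons]
    push_cast
    ring

/-- if one polygon lies above another with the same endpoints, then the second moment of its slopes is
smaller, with equality only if the polygons coincide -/
theorem Above.moment {N H : Multiset ℚ} (h : Above N H) :
    N.card = H.card ∧ N.sum = H.sum ∧ sq N ≤ sq H ∧ (sq H ≤ sq N → N = H) := by
  obtain ⟨n, a, b, ha, -, rfl, rfl, hle, hsum⟩ := h
  have hs : ∀ (f : ℕ → ℚ), ((Multiset.range n).map f).sum = ∑ i ∈ Finset.range n, f i := fun f => rfl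
  have hq : ∀ (f : ℕ → ℚ), sq ((Multiset.range n).map f) = ∑ i ∈ Finset.range n, f i ^ 2 := by
    intro f
    rw [sq, Multiset.map_map]
    rfl
  -- Abel summation
  have habel : ∀ m ≤ n, a m * ∑ i ∈ Finset.range m, (b i - a i) ≤
      ∑ i ∈ Finset.range m, a i * (b i - a i) := by
    intro m
    induction m with
    | zero => intro _; simp
    | succ m ih =>
      intro hm
      have h1 := ih (by omega)
      have h2 : ∑ i ∈ Finset.range (m + 1), (b i - a i) ≤ 0 := by
        rw [Finset.sum_sub_distrib]
        linarith [hle (m + 1) hm]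
      have h3 : a m ≤ a (m + 1) := ha (Nat.le_succ m)
      have h4 : a (m + 1) * ∑ i ∈ Finset.range (m + 1), (b i - a i) ≤
          a m * ∑ i ∈ Finset.range (m + 1), (b i - a i) := by nlinarith
      refine h4.trans ?_
      rw [Finset.sum_range_succ, Finset.sum_range_succ, mul_add]
      linarith
  have h0 : ∑ i ∈ Finset.range n, (b i - a i) = 0 := by
    rw [Finset.sum_sub_distrib, hsum, sub_self]
  have h1 : 0 ≤ ∑ i ∈ Finset.range n, a i * (b i - a i) := by
    have := habel n le_rfl
    rwa [h0, mul_zero] at this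
  have h2 : ∑ i ∈ Finset.range n, b i ^ 2 = ∑ i ∈ Finset.range n, a i ^ 2 +
      ∑ i ∈ Finset.range n, (b i - a i) ^ 2 + 2 * ∑ i ∈ Finset.range n, a i * (b i - a i) := by
    rw [Finset.mul_sum, ← Finset.sum_add_distrib, ← Finset.sum_add_distrib]
    exact Finset.sum_congr rfl fun i _ => by ring
  have h3 : 0 ≤ ∑ i ∈ Finset.range n, (b i - a i) ^ 2 := Finset.sum_nonneg fun i _ => sq_nonneg _
  refine ⟨by simp, by rw [hs, hs, hsum], ?_, ?_⟩
  · rw [hq, hq]
    linarith
  · intro h
    rw [hq, hq] at h
    have h4 : ∑ i ∈ Finset.range n, (b i - a i) ^ 2 = 0 := by linarith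
    refine Multiset.map_congr rfl fun i hi => ?_
    have h5 := (Finset.sum_eq_zero_iff_of_nonneg fun i _ => sq_nonneg (b i - a i)).1 h4 i
      (Finset.mem_range.2 (Multiset.mem_range.1 hi))
    have h6 : b i - a i = 0 := by
      exact pow_eq_zero_iff (two_ne_zero) |>.1 h5
    linarith

end Pool.Agent.L0h15.OP
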